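import Pool.Agent.Q272.NM3

/-!
# Infinitely many connected graphs admit a non-monotone witness

The family consists of the graphs `H_k`: a `4`-cycle with `k` pendant edges at one of its vertices.
-/

namespace Pool.Agent.Results.MP_1c393c_co.PendantFamily

open Pool.Agent.Q272.NM
open Pool.Agent.Q272.NM.Vx

/-- `c` is a proper edge colouring of `G` (only its values on edges of `G` matter). -/
def IsProper {V : Type} (G : SimpleGraph V) (c : Sym2 V → ℕ) : Prop :=
  ∀ a b b', G.Adj a b → G.Adj a b' → b ≠ b' → c s(a, b) ≠ c s(a, b')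

/-- the number of colours `c` uses on the edges of `G`. -/
noncomputable def numColours {V : Type} (G : SimpleGraph V) (c : Sym2 V → ℕ) : ℕ :=
  (c '' G.edgeSet).ncard

/-- the chromatic index. -/
noncomputable def chromIndex {V : Type} (G : SimpleGraph V) : ℕ :=
  sInf {m | ∃ c : Sym2 V → ℕ, IsProper G c ∧ numColours G c = m}

/-- `G` contains a rainbow copy of `H` under `c`. -/
def HasRainbow {W V : Type} (H : SimpleGraph W) (G : SimpleGraph V) (c : Sym2 V → ℕ) : Prop :=
  ∃ f : W → V, Function.Injective f ∧ (∀ x y, H.Adj x y → G.Adj (f x) (f y)) ∧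
    ∀ e ∈ H.edgeSet, ∀ e' ∈ H.edgeSet, e ≠ e' → c (e.map f) ≠ c (e'.map f)

/-- `G` is a non-monotone witness for `H`. -/
def IsWitness {W V : Type} (H : SimpleGraph W) (G : SimpleGraph V) : Prop :=
  (∀ c : Sym2 V → ℕ, IsProper G c → numColours G c = chromIndex G → HasRainbow H G c) ∧
  ∃ c : Sym2 V → ℕ, IsProper G c ∧ ¬ HasRainbow H G c

/-- the `4`-cycle with `k` pendant edges at one vertex. -/
def pend (k : ℕ) : SimpleGraph (Fin 4 ⊕ Fin k) where
  Adj x y := match x, y with
    | Sum.inl i, Sum.inl j => j = i + 1 ∨ i = j + 1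
    | Sum.inl i, Sum.inr _ => i = 0
    | Sum.inr _, Sum.inl i => i = 0
    | Sum.inr _, Sum.inr _ => False
  symm := ⟨by
    rintro (i | i) (j | j) h
    · exact h.symm
    · exact h
    · exact h
    · exact h⟩
  loopless := ⟨by
    rintro (i | i) h
    · have : ∀ i : Fin 4, ¬ (i = i + 1 ∨ i = i + 1) := by decide
      exact this i h
    · exact h⟩

theorem pend_edge {k : ℕ} (e : Sym2 (Fin 4 ⊕ Fin k)) (he : e ∈ (pend k).edgeSet) :
    e = s(Sum.inl 0, Sum.inl 1) ∨ e = s(Sum.inl 1, Sum.inl 2) ∨ e = s(Sum.inl 2, Sum.inl 3) ∨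
      e = s(Sum.inl 3, Sum.inl 0) ∨ ∃ j, e = s(Sum.inl 0, Sum.inr j) := by
  induction e with | _ x y => ?_
  rw [SimpleGraph.mem_edgeSet] at he
  rcases x with i | i <;> rcases y with j | j
  · change j = i + 1 ∨ i = j + 1 at he
    rcases he with rfl | rfl
    · fin_cases i <;> simp
    · fin_cases j <;> simp
  · change i = 0 at he
    subst he
    exact Or.inr (Or.inr (Or.inr (Or.inr ⟨j, rfl⟩)))
  · change j = 0 at he
    subst he
    exact Or.inr (Or.inr (Or.inr (Or.inr ⟨i, Sym2.eq_swap⟩)))
  · exact he.elim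

theorem pend_conn (k : ℕ) : (pend k).Connected := by
  have h01 : (pend k).Adj (Sum.inl 0) (Sum.inl 1) := Or.inl rfl
  have h12 : (pend k).Adj (Sum.inl 1) (Sum.inl 2) := Or.inl rfl
  have h30 : (pend k).Adj (Sum.inl 3) (Sum.inl 0) := Or.inl rfl
  have key : ∀ x, (pend k).Reachable (Sum.inl 0) x := by
    rintro (i | j)
    · fin_cases i
      · exact SimpleGraph.Reachable.refl _
      · exact h01.reachable
      · exact h01.reachable.trans h12.reachable
      · exact h30.symm.reachable
    · have : (pend k).Adj (Sum.inl 0) (Sum.inr j) := rfl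
      exact this.reachable
  have : Nonempty (Fin 4 ⊕ Fin k) := ⟨Sum.inl 0⟩
  exact SimpleGraph.Connected.mk (fun x y => (key x).symm.trans (key y))

theorem pend_not_iso (k l : ℕ) (h : k ≠ l) : IsEmpty (pend k ≃g pend l) := by
  constructor
  intro φ
  have := Fintype.card_congr φ.toEquiv
  simp at this
  exact h this

theorem adj_core {k : ℕ} (i j : Fin 9) (h : coreAdj i j = true) :
    (wit k).Adj (core i) (core j) := by
  revert h
  fin_cases i <;> fin_cases j <;>
  first
  | (intro h; exact absurd h (by decide))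
  | (intro _; refine ⟨by simp, ⟨0, by omega⟩, ?_⟩; simp [nb, coreNb]; done)
  | (intro _; refine ⟨by simp, ⟨1, by omega⟩, ?_⟩; simp [nb, coreNb]; done)
  | (intro _; refine ⟨by simp, ⟨2, by omega⟩, ?_⟩; simp [nb, coreNb]; done)
  | (intro _; refine ⟨by simp, ⟨3, by omega⟩, ?_⟩; simp [nb, coreNb]; done)

theorem hub_full {k : ℕ} (d : Fin (k + 4)) : nb d (core 8) ≠ core 8 :=
  core_full 8 (by simp) d

theorem numColours_ge {k : ℕ} (c : Sym2 (Vx k) → ℕ) (hc : IsProper (wit k) c) :
    k + 4 ≤ numColours (wit k) c := by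
  have hinj : Function.Injective (fun d : Fin (k + 4) => c s(core 8, nb d (core 8))) :=
    fun d e h => col_inj c hc hub_full h
  have h1 : Set.range (fun d : Fin (k + 4) => c s(core 8, nb d (core 8))) ⊆
      c '' (wit k).edgeSet := by
    rintro _ ⟨d, rfl⟩
    exact ⟨_, (SimpleGraph.mem_edgeSet _).mpr (adj_nb (hub_full d)), rfl⟩
  have h2 := Set.ncard_le_ncard h1 (Set.toFinite _)
  rw [Set.ncard_range_of_injective hinj] at h2
  unfold numColours
  simpa using h2

/-- the colouring with `k + 4` colours. -/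
def c1 (k : ℕ) : Sym2 (Vx k) → ℕ := Sym2.lift ⟨c1f, c1f_symm⟩

theorem c1_proper (k : ℕ) : IsProper (wit k) (c1 k) :=
  fun _ _ _ h h' hne => c1f_proper h h' hne

theorem c1_num (k : ℕ) : numColours (wit k) (c1 k) = k + 4 := by
  apply le_antisymm _ (numColours_ge _ (c1_proper k))
  have h1 : c1 k '' (wit k).edgeSet ⊆ ((Finset.range (k + 4) : Finset ℕ) : Set ℕ) := by
    rintro _ ⟨e, he, rfl⟩
    induction e with | _ a b => ?_
    have : c1f a b < k + 4 := c1f_lt he
    rw [Finset.mem_coe, Finset.mem_range]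
    exact this
  have h2 := Set.ncard_le_ncard h1 (Finset.finite_toSet _)
  rw [Set.ncard_coe_finset, Finset.card_range] at h2
  exact h2

theorem chromIndex_wit (k : ℕ) : chromIndex (wit k) = k + 4 := by
  apply le_antisymm
  · exact Nat.sInf_le ⟨c1 k, c1_proper k, c1_num k⟩
  · refine le_csInf (s := {m | ∃ c : Sym2 (Vx k) → ℕ, IsProper (wit k) c ∧
      numColours (wit k) c = m}) ⟨_, c1 k, c1_proper k, c1_num k⟩ ?_
    rintro m ⟨c, hc, rfl⟩
    exact numColours_ge c hc

section

variable {k : ℕ} (c : Sym2 (Vx k) → ℕ) (P : Finset ℕ)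
  (hc : IsProper (wit k) c)
  (hP : ∀ a b, (wit k).Adj a b → c s(a, b) ∈ P) (hcard : P.card = k + 4)

include hc hP hcard in
theorem side (s : Bool) (x : Fin 9) (hx : coreAdj (port0 s) x = true) :
    ∃ y, coreAdj (port1 s) y = true ∧
      c s(core (port0 s), core x) = c s(core (port1 s), core y) := by
  have hκ := hP _ _ (adj_core (k := k) _ _ hx)
  have hf : ∀ d : Fin (k + 4), nb d (core (port1 s)) ≠ core (port1 s) :=
    core_full (port1 s) (by cases s <;> simp [port1])
  obtain ⟨d, hd⟩ := full c P hc hP hcard hf hκ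
  have hadj := adj_nb (hf d)
  rcases hv : nb d (core (port1 s)) with y | l | ⟨s', g, u⟩
  · rw [hv] at hd hadj
    exact ⟨y, core_core hadj, hd.symm⟩
  · rw [hv] at hadj
    have := core_leaf hadj
    cases s <;> simp [port1] at this
  · rw [hv] at hd hadj
    exfalso
    obtain ⟨h1, h2⟩ := gad_core hadj.symm
    have key : ∀ s s' : Bool, port1 s ≠ port0 s' := by decide
    have key2 : ∀ s s' : Bool, port1 s = port1 s' → s = s' := by decide
    rcases h2 with ⟨-, h2⟩ | ⟨h2, h3⟩
    · exact key _ _ h2
    · have hs := key2 _ _ h3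
      subst hs
      subst h2
      have h4 := parity c P hc hP hcard s g h1
      have h5 : (wit k).Adj (core (port0 s)) (gad s g (zero k)) := by
        have e0 : nb g (gad s g (zero k)) = core (port0 s) := by
          simp [nb, h1]
        have := (adj_nb (gad_full s g (zero k) g)).symm
        rwa [e0] at this
      exact hc _ _ _ (adj_core _ _ hx) h5 (by simp) (by rw [h4, hd])

include hc hP hcard in
theorem embed (p q r : Fin 9) (h1 : coreAdj 8 p = true) (h2 : coreAdj p q = true)
    (h3 : coreAdj q r = true) (h4 : coreAdj r 8 = true) (hpr : p ≠ r)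
    (h8q : coreAdj 8 q = false) (h8 : q ≠ 8)
    (r1 : c s(core 8, core p) ≠ c s(core p, core q))
    (r2 : c s(core 8, core p) ≠ c s(core q, core r))
    (r3 : c s(core 8, core p) ≠ c s(core r, core 8))
    (r4 : c s(core p, core q) ≠ c s(core q, core r))
    (r5 : c s(core p, core q) ≠ c s(core r, core 8))
    (r6 : c s(core q, core r) ≠ c s(core r, core 8)) : HasRainbow (pend k) (wit k) c := by
  classical
  have g1 := adj_core (k := k) _ _ h1
  have g2 := adj_core (k := k) _ _ h2
  have g3 := adj_core (k := k) _ _ h3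
  have g4 := adj_core (k := k) _ _ h4
  set Q : Finset ℕ := {c s(core 8, core p), c s(core p, core q), c s(core q, core r),
    c s(core r, core 8)} with hQ
  have hQP : Q ⊆ P := by
    intro x hx
    rw [hQ] at hx
    simp only [Finset.mem_insert, Finset.mem_singleton] at hx
    rcases hx with rfl | rfl | rfl | rfl
    · exact hP _ _ g1
    · exact hP _ _ g2
    · exact hP _ _ g3
    · exact hP _ _ g4
  have hQc : Q.card = 4 := by
    rw [hQ, Finset.card_insert_of_notMem, Finset.card_insert_of_notMem,
      Finset.card_insert_of_notMem, Finset.card_singleton]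
    · simpa using r6
    · simp only [Finset.mem_insert, Finset.mem_singleton, not_or]; exact ⟨r4, r5⟩
    · simp only [Finset.mem_insert, Finset.mem_singleton, not_or]; exact ⟨r1, r2, r3⟩
  have hR : (P \ Q).card = k := by
    rw [Finset.card_sdiff_of_subset hQP, hcard, hQc]; omega
  let κ := ((P \ Q).equivFinOfCardEq hR).symm
  have hκP : ∀ j, (κ j : ℕ) ∈ P := fun j => (Finset.mem_sdiff.mp (κ j).2).1
  have hκQ : ∀ j, (κ j : ℕ) ∉ Q := fun j => (Finset.mem_sdiff.mp (κ j).2).2
  have hch : ∀ j, ∃ d, c s(core 8, nb d (core 8)) = κ j :=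
    fun j => full c P hc hP hcard hub_full (hκP j)
  choose t ht using hch
  let f : Fin 4 ⊕ Fin k → Vx k := fun x => match x with
    | Sum.inl 0 => core 8
    | Sum.inl 1 => core p
    | Sum.inl 2 => core q
    | Sum.inl 3 => core r
    | Sum.inr j => nb (t j) (core 8)
  have n8 : ∀ j, nb (t j) (core 8) ≠ core 8 := fun j => hub_full _
  have np : ∀ j, nb (t j) (core 8) ≠ core p := by
    intro j h
    apply hκQ j
    rw [← ht j, h, hQ]; simp
  have nr : ∀ j, nb (t j) (core 8) ≠ core r := by
    intro j h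
    apply hκQ j
    have h' : c s(core 8, core r) = c s(core r, core 8) := by rw [Sym2.eq_swap]
    rw [← ht j, h, h', hQ]; simp
  have nq : ∀ j, nb (t j) (core 8) ≠ core q := by
    intro j h
    have := adj_nb (n8 j)
    rw [h] at this
    rw [core_core this] at h8q
    exact absurd h8q (by decide)
  have p8 : p ≠ 8 := fun h => g1.1 (by rw [h])
  have pr8 : r ≠ 8 := fun h => g4.1 (by rw [h])
  have pq : p ≠ q := fun h => g2.1 (by rw [h])
  have qr : q ≠ r := fun h => g3.1 (by rw [h])
  refine ⟨f, ?_, ?_, ?_⟩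
  · intro x y hxy
    rcases x with i | i <;> rcases y with j | j
    · fin_cases i <;> fin_cases j <;> simp [f] at hxy ⊢ <;>
        first
        | (exact absurd hxy p8)
        | (exact absurd hxy.symm p8)
        | (exact absurd hxy pr8)
        | (exact absurd hxy.symm pr8)
        | (exact absurd hxy h8)
        | (exact absurd hxy.symm h8)
        | (exact absurd hxy pq)
        | (exact absurd hxy.symm pq)
        | (exact absurd hxy qr)
        | (exact absurd hxy.symm qr)
        | (exact absurd hxy hpr)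
        | (exact absurd hxy.symm hpr)
    · fin_cases i
      · exact absurd hxy.symm (n8 j)
      · exact absurd hxy.symm (np j)
      · exact absurd hxy.symm (nq j)
      · exact absurd hxy.symm (nr j)
    · fin_cases j
      · exact absurd hxy (n8 i)
      · exact absurd hxy (np i)
      · exact absurd hxy (nq i)
      · exact absurd hxy (nr i)
    · have h : nb (t i) (core 8) = nb (t j) (core 8) := hxy
      have h' : κ i = κ j := by
        apply Subtype.ext
        rw [← ht i, ← ht j, h]
      rw [κ.injective h']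
  · rintro (i | i) (j | j) h
    · change j = i + 1 ∨ i = j + 1 at h
      rcases h with rfl | rfl
      · fin_cases i
        · exact g1
        · exact g2
        · exact g3
        · exact g4
      · fin_cases j
        · exact g1.symm
        · exact g2.symm
        · exact g3.symm
        · exact g4.symm
    · change i = 0 at h
      subst h
      exact adj_nb (n8 j)
    · change j = 0 at h
      subst h
      exact (adj_nb (n8 i)).symm
    · exact h.elim
  · intro e he e' he' hne
    have m1 : c (Sym2.map f s(Sum.inl 0, Sum.inl 1)) = c s(core 8, core p) := rfl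
    have m2 : c (Sym2.map f s(Sum.inl 1, Sum.inl 2)) = c s(core p, core q) := rfl
    have m3 : c (Sym2.map f s(Sum.inl 2, Sum.inl 3)) = c s(core q, core r) := rfl
    have m4 : c (Sym2.map f s(Sum.inl 3, Sum.inl 0)) = c s(core r, core 8) := rfl
    have m5 : ∀ j, c (Sym2.map f s(Sum.inl 0, Sum.inr j)) = κ j := fun j => ht j
    have k1 : ∀ j, (κ j : ℕ) ≠ c s(core 8, core p) := by
      intro j h; apply hκQ j; rw [h, hQ]; simp
    have k2 : ∀ j, (κ j : ℕ) ≠ c s(core p, core q) := by
      intro j h; apply hκQ j; rw [h, hQ]; simp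
    have k3 : ∀ j, (κ j : ℕ) ≠ c s(core q, core r) := by
      intro j h; apply hκQ j; rw [h, hQ]; simp
    have k4 : ∀ j, (κ j : ℕ) ≠ c s(core r, core 8) := by
      intro j h; apply hκQ j; rw [h, hQ]; simp
    rcases pend_edge e he with rfl | rfl | rfl | rfl | ⟨j, rfl⟩ <;>
    rcases pend_edge e' he' with rfl | rfl | rfl | rfl | ⟨j', rfl⟩
    · exact absurd rfl hne
    · rw [m1, m2]; exact r1
    · rw [m1, m3]; exact r2
    · rw [m1, m4]; exact r3
    · rw [m1, m5]; exact (k1 _).symm
    · rw [m2, m1]; exact r1.symm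
    · exact absurd rfl hne
    · rw [m2, m3]; exact r4
    · rw [m2, m4]; exact r5
    · rw [m2, m5]; exact (k2 _).symm
    · rw [m3, m1]; exact r2.symm
    · rw [m3, m2]; exact r4.symm
    · exact absurd rfl hne
    · rw [m3, m4]; exact r6
    · rw [m3, m5]; exact (k3 _).symm
    · rw [m4, m1]; exact r3.symm
    · rw [m4, m2]; exact r5.symm
    · rw [m4, m3]; exact r6.symm
    · exact absurd rfl hne
    · rw [m4, m5]; exact (k4 _).symm
    · rw [m5, m1]; exact k1 _
    · rw [m5, m2]; exact k2 _
    · rw [m5, m3]; exact k3 _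
    · rw [m5, m4]; exact k4 _
    · rw [m5, m5]
      intro h
      apply hne
      have : κ j = κ j' := Subtype.ext h
      rw [κ.injective this]

include hc hP hcard in
theorem rainbow : HasRainbow (pend k) (wit k) c := by
  have A : ∀ i j, coreAdj i j = true → (wit k).Adj (core i) (core j) := fun i j h => adj_core i j h
  have N : ∀ i j l : Fin 9, coreAdj i j = true → coreAdj i l = true → j ≠ l →
      c s(core i, core j) ≠ c s(core i, core l) :=
    fun i j l h h' hne => hc _ _ _ (A _ _ h) (A _ _ h') (by simpa using hne)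
  have S : ∀ i j : Fin 9, c s(core i, core j) = c s(core j, core i) :=
    fun i j => by rw [Sym2.eq_swap]
  have s4 : ∀ y : Fin 9, coreAdj 4 y = true → y = 8 ∨ y = 3 ∨ y = 5 := by decide
  have s6 : ∀ y : Fin 9, coreAdj 6 y = true → y = 8 ∨ y = 5 ∨ y = 7 := by decide
  have F : ∀ x, coreAdj 0 x = true → c s(core 0, core x) = c s(core 4, core 8) ∨
      c s(core 0, core x) = c s(core 4, core 3) ∨ c s(core 0, core x) = c s(core 4, core 5) := by
    intro x hx
    obtain ⟨y, hy, h⟩ := side c P hc hP hcard false x hx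
    rcases s4 y hy with rfl | rfl | rfl
    · exact Or.inl h
    · exact Or.inr (Or.inl h)
    · exact Or.inr (Or.inr h)
  have T : ∀ x, coreAdj 2 x = true → c s(core 2, core x) = c s(core 6, core 8) ∨
      c s(core 2, core x) = c s(core 6, core 5) ∨ c s(core 2, core x) = c s(core 6, core 7) := by
    intro x hx
    obtain ⟨y, hy, h⟩ := side c P hc hP hcard true x hx
    rcases s6 y hy with rfl | rfl | rfl
    · exact Or.inl h
    · exact Or.inr (Or.inl h)
    · exact Or.inr (Or.inr h)
  have key := quad (c s(core 0, core 8)) (c s(core 2, core 8)) (c s(core 4, core 8))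
    (c s(core 6, core 8)) (c s(core 0, core 1)) (c s(core 2, core 1)) (c s(core 2, core 3))
    (c s(core 4, core 3)) (c s(core 4, core 5)) (c s(core 6, core 5)) (c s(core 6, core 7))
    (c s(core 0, core 7))
    (by rw [S 0 8, S 2 8]; exact N 8 0 2 (by decide) (by decide) (by decide))
    (by rw [S 0 8, S 4 8]; exact N 8 0 4 (by decide) (by decide) (by decide))
    (by rw [S 0 8, S 6 8]; exact N 8 0 6 (by decide) (by decide) (by decide))
    (by rw [S 2 8, S 4 8]; exact N 8 2 4 (by decide) (by decide) (by decide))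
    (by rw [S 2 8, S 6 8]; exact N 8 2 6 (by decide) (by decide) (by decide))
    (by rw [S 4 8, S 6 8]; exact N 8 4 6 (by decide) (by decide) (by decide))
    (N 0 8 7 (by decide) (by decide) (by decide))
    (N 0 8 1 (by decide) (by decide) (by decide))
    (N 0 7 1 (by decide) (by decide) (by decide))
    (N 2 8 1 (by decide) (by decide) (by decide))
    (N 2 8 3 (by decide) (by decide) (by decide))
    (N 2 1 3 (by decide) (by decide) (by decide))
    (N 4 8 3 (by decide) (by decide) (by decide))
    (N 4 8 5 (by decide) (by decide) (by decide))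
    (N 4 3 5 (by decide) (by decide) (by decide))
    (N 6 8 5 (by decide) (by decide) (by decide))
    (N 6 8 7 (by decide) (by decide) (by decide))
    (N 6 5 7 (by decide) (by decide) (by decide))
    (by rw [S 0 1, S 2 1]; exact N 1 0 2 (by decide) (by decide) (by decide))
    (by rw [S 2 3, S 4 3]; exact N 3 2 4 (by decide) (by decide) (by decide))
    (by rw [S 4 5, S 6 5]; exact N 5 4 6 (by decide) (by decide) (by decide))
    (by rw [S 6 7, S 0 7]; exact N 7 6 0 (by decide) (by decide) (by decide))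
    (F 8 (by decide)) (F 7 (by decide)) (F 1 (by decide))
    (T 8 (by decide)) (T 1 (by decide)) (T 3 (by decide))
  rcases key with ⟨k1, k2⟩ | ⟨k1, k2⟩ | ⟨k1, k2⟩ | ⟨k1, k2⟩
  · refine embed c P hc hP hcard 0 1 2 (by decide) (by decide) (by decide) (by decide) (by decide)
      (by decide) (by decide) ?_ ?_ ?_ ?_ ?_ ?_
    · rw [S 8 0]; exact N 0 8 1 (by decide) (by decide) (by decide)
    · rw [S 8 0, S 1 2]; exact k2.symm
    · rw [S 2 8]; exact N 8 0 2 (by decide) (by decide) (by decide)
    · rw [S 0 1]; exact N 1 0 2 (by decide) (by decide) (by decide)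
    · exact k1
    · rw [S 1 2]; exact N 2 1 8 (by decide) (by decide) (by decide)
  · refine embed c P hc hP hcard 2 3 4 (by decide) (by decide) (by decide) (by decide) (by decide)
      (by decide) (by decide) ?_ ?_ ?_ ?_ ?_ ?_
    · rw [S 8 2]; exact N 2 8 3 (by decide) (by decide) (by decide)
    · rw [S 8 2, S 3 4]; exact k2.symm
    · rw [S 4 8]; exact N 8 2 4 (by decide) (by decide) (by decide)
    · rw [S 2 3]; exact N 3 2 4 (by decide) (by decide) (by decide)
    · exact k1
    · rw [S 3 4]; exact N 4 3 8 (by decide) (by decide) (by decide)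
  · refine embed c P hc hP hcard 4 5 6 (by decide) (by decide) (by decide) (by decide) (by decide)
      (by decide) (by decide) ?_ ?_ ?_ ?_ ?_ ?_
    · rw [S 8 4]; exact N 4 8 5 (by decide) (by decide) (by decide)
    · rw [S 8 4, S 5 6]; exact k2.symm
    · rw [S 6 8]; exact N 8 4 6 (by decide) (by decide) (by decide)
    · rw [S 4 5]; exact N 5 4 6 (by decide) (by decide) (by decide)
    · exact k1
    · rw [S 5 6]; exact N 6 5 8 (by decide) (by decide) (by decide)
  · refine embed c P hc hP hcard 6 7 0 (by decide) (by decide) (by decide) (by decide) (by decide)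
      (by decide) (by decide) ?_ ?_ ?_ ?_ ?_ ?_
    · rw [S 8 6]; exact N 6 8 7 (by decide) (by decide) (by decide)
    · rw [S 8 6, S 7 0]; exact k2.symm
    · rw [S 0 8]; exact N 8 6 0 (by decide) (by decide) (by decide)
    · rw [S 6 7]; exact N 7 6 0 (by decide) (by decide) (by decide)
    · exact k1
    · rw [S 7 0]; exact N 0 7 8 (by decide) (by decide) (by decide)

end

/-- the second colouring. -/
def c2 (k : ℕ) : Sym2 (Vx k) → ℕ := Sym2.lift ⟨c2f, c2f_symm⟩

theorem c2_no_rainbow (k : ℕ) : ¬ HasRainbow (pend k) (wit k) (c2 k) := by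
  rintro ⟨f, hinj, hadj, hcol⟩
  have a01 : (pend k).Adj (Sum.inl 0) (Sum.inl 1) := Or.inl rfl
  have a12 : (pend k).Adj (Sum.inl 1) (Sum.inl 2) := Or.inl rfl
  have a23 : (pend k).Adj (Sum.inl 2) (Sum.inl 3) := Or.inl rfl
  have a30 : (pend k).Adj (Sum.inl 3) (Sum.inl 0) := Or.inl rfl
  refine no_rainbow (hadj _ _ a01) (hadj _ _ a12) (hadj _ _ a23) (hadj _ _ a30) ?_ ?_ ?_ ?_ ?_ ?_
  · exact fun h => absurd (hinj h) (by simp)
  · exact fun h => absurd (hinj h) (by simp)
  · exact hcol s(Sum.inl 0, Sum.inl 1) a01 s(Sum.inl 1, Sum.inl 2) a12 (by simp)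
  · exact hcol s(Sum.inl 0, Sum.inl 1) a01 s(Sum.inl 2, Sum.inl 3) a23 (by simp)
  · exact hcol s(Sum.inl 0, Sum.inl 1) a01 s(Sum.inl 3, Sum.inl 0) a30 (by simp)
  · exact hcol s(Sum.inl 1, Sum.inl 2) a12 s(Sum.inl 3, Sum.inl 0) a30 (by simp)

/-- There is an infinite family of pairwise non-isomorphic connected finite graphs, each of which
admits a non-monotone witness. -/
theorem result :
    ∃ (W : ℕ → Type) (_ : ∀ k, Finite (W k)) (H : ∀ k, SimpleGraph (W k)),
      (∀ k, (H k).Connected) ∧ (∀ k l, k ≠ l → IsEmpty (H k ≃g H l)) ∧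
      ∀ k, ∃ (V : Type) (_ : Finite V) (G : SimpleGraph V), IsWitness (H k) G := by
  refine ⟨fun k => Fin 4 ⊕ Fin k, fun k => inferInstance, pend, pend_conn, pend_not_iso, ?_⟩
  intro k
  refine ⟨Vx k, inferInstance, wit k, ?_, c2 k, fun _ _ _ h h' hne => c2f_proper h h' hne,
    c2_no_rainbow k⟩
  intro c hc hnum
  rw [chromIndex_wit] at hnum
  have hfin : (c '' (wit k).edgeSet).Finite := Set.toFinite _
  refine rainbow c hfin.toFinset hc ?_ ?_
  · intro a b h
    rw [Set.Finite.mem_toFinset]
    exact ⟨_, h, rfl⟩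
  · rw [← Set.ncard_eq_toFinset_card _ hfin]
    exact hnum

end Pool.Agent.Results.MP_1c393c_co.PendantFamily
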